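import Mathlib

/-!
# Project WL, job FEX: products of differences of variables
-/

set_option autoImplicit false

open MvPolynomial

namespace Pool.Agent.V5helper6.WL

section prods

variable {K : Type*} [Field K] {n : ℕ}

/-- the product of the differences -/
noncomputable def PL (K : Type*) [Field K] {n : ℕ} (L : List (Fin n × Fin n)) :
    MvPolynomial (Fin n) K :=
  (L.map fun e => X e.1 - X e.2).prod

lemma PL_nil : PL K ([] : List (Fin n × Fin n)) = 1 := rfl

lemma PL_cons (e : Fin n × Fin n) (L : List (Fin n × Fin n)) :
    PL K (e :: L) = (X e.1 - X e.2) * PL K L := by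
  simp [PL]

lemma PL_ne_zero (L : List (Fin n × Fin n)) (h : ∀ e ∈ L, e.1 ≠ e.2) : PL K L ≠ 0 := by
  induction L with
  | nil => rw [PL_nil]; exact one_ne_zero
  | cons e L ih =>
    rw [PL_cons]
    refine mul_ne_zero (sub_ne_zero.2 fun h1 => ?_) (ih fun e' he' => h e' (List.mem_cons_of_mem _ he'))
    exact h e (List.mem_cons_self) (X_injective h1)

lemma PL_homog (L : List (Fin n × Fin n)) : (PL K L).IsHomogeneous L.length := by
  induction L with
  | nil => rw [PL_nil]; exact isHomogeneous_one _ _
  | cons e L ih =>
    rw [PL_cons, List.length_cons, add_comm]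
    exact ((isHomogeneous_X _ _).sub (isHomogeneous_X _ _)).mul ih

lemma PL_deriv (L : List (Fin n × Fin n)) : ∑ c, pderiv c (PL K L) = 0 := by
  classical
  induction L with
  | nil => rw [PL_nil]; simp
  | cons e L ih =>
    rw [PL_cons]
    have h1 : ∀ c, pderiv c ((X e.1 - X e.2 : MvPolynomial (Fin n) K) * PL K L) =
        (X e.1 - X e.2) * pderiv c (PL K L) +
          PL K L * ((Pi.single c 1 : Fin n → MvPolynomial (Fin n) K) e.1 -
            (Pi.single c 1 : Fin n → MvPolynomial (Fin n) K) e.2) := by
      intro c
      rw [Derivation.leibniz, smul_eq_mul, smul_eq_mul, map_sub, pderiv_X, pderiv_X]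
    rw [Finset.sum_congr rfl fun c _ => h1 c, Finset.sum_add_distrib, ← Finset.mul_sum, ih,
      mul_zero, zero_add, ← Finset.mul_sum, Finset.sum_sub_distrib]
    simp [Pi.single_apply]

/-- the degree of a monomial in some of the variables -/
lemma PL_coeff (S : Finset (Fin n)) (L : List (Fin n × Fin n)) : ∀ m, coeff m (PL K L) ≠ 0 →
    ∑ c ∈ S, m c ≤ L.countP fun e => decide (e.1 ∈ S ∨ e.2 ∈ S) := by
  classical
  induction L with
  | nil =>
    intro m hm
    rw [PL_nil, coeff_one] at hm
    have : m = 0 := by
      by_contra h
      rw [if_neg (Ne.symm h)] at hm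
      exact hm rfl
    rw [this]
    simp
  | cons e L ih =>
    intro m hm
    have key : ∀ s, s = e.1 ∨ s = e.2 → coeff m (X s * PL K L) ≠ 0 →
        ∑ c ∈ S, m c ≤ (e :: L).countP fun e => decide (e.1 ∈ S ∨ e.2 ∈ S) := by
      intro s hs h1
      rw [coeff_X_mul'] at h1
      by_cases hsm : s ∈ m.support
      · rw [if_pos hsm] at h1
        have h2 := ih _ h1
        have h3 : m = (m - Finsupp.single s 1) + Finsupp.single s 1 := by
          ext c
          rw [Finsupp.add_apply, Finsupp.tsub_apply]
          by_cases hc : s = c
          · subst hc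
            have := Finsupp.mem_support_iff.1 hsm
            rw [Finsupp.single_eq_same]
            omega
          · rw [Finsupp.single_eq_of_ne (Ne.symm hc)]
            omega
        have h4 : ∑ c ∈ S, m c = ∑ c ∈ S, (m - Finsupp.single s 1 : Fin n →₀ ℕ) c +
            (if s ∈ S then 1 else 0) := by
          conv_lhs => rw [h3]
          simp only [Finsupp.add_apply]
          rw [Finset.sum_add_distrib]
          congr 1
          simp only [Finsupp.single_apply]
          rw [Finset.sum_ite_eq]
        rw [h4, List.countP_cons]
        have h5 : (if s ∈ S then 1 else 0) ≤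
            (if decide (e.1 ∈ S ∨ e.2 ∈ S) = true then 1 else 0) := by
          by_cases hsS : s ∈ S
          · have : e.1 ∈ S ∨ e.2 ∈ S := by
              rcases hs with rfl | rfl
              · exact Or.inl hsS
              · exact Or.inr hsS
            rw [if_pos hsS, if_pos (by simpa using this)]
          · rw [if_neg hsS]
            exact Nat.zero_le _
        exact Nat.add_le_add h2 h5
      · rw [if_neg hsm] at h1
        exact absurd rfl h1
    rw [PL_cons, sub_mul, coeff_sub] at hm
    by_cases h1 : coeff m (X e.1 * PL K L) = 0
    · by_cases h2 : coeff m (X e.2 * PL K L) = 0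
      · rw [h1, h2, sub_zero] at hm
        exact absurd rfl hm
      · exact key _ (Or.inr rfl) h2
    · exact key _ (Or.inl rfl) h1

end prods

/-- the lists of edges of a multigraph with `N` vertices, all degrees at most `d - 1`, and
`N (d - 1) / 2` edges -/
lemma exists_list (d : ℕ) (hd : 1 ≤ d) : ∀ N : ℕ, 2 ≤ N → ∃ L : List (ℕ × ℕ),
    (∀ e ∈ L, e.1 < N ∧ e.2 < N ∧ e.1 ≠ e.2) ∧
    (∀ c, (L.countP fun e => decide (e.1 = c ∨ e.2 = c)) ≤ d - 1) ∧
    L.length = N * (d - 1) / 2 := by
  intro N
  induction N using Nat.strong_induction_on with
  | _ N ih =>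
    intro hN
    by_cases h2 : N = 2
    · subst h2
      refine ⟨List.replicate (d - 1) (0, 1), ?_, ?_, ?_⟩
      · intro e he
        rw [List.eq_of_mem_replicate he]
        simp
      · intro c
        exact (List.countP_le_length).trans (by rw [List.length_replicate])
      · rw [List.length_replicate]; omega
    · by_cases h3 : N = 3
      · subst h3
        refine ⟨List.replicate (d / 2) (0, 1) ++ List.replicate ((d - 1) / 2) (1, 2) ++
          List.replicate ((d - 1) / 2) (0, 2), ?_, ?_, ?_⟩
        · intro e he
          rw [List.mem_append, List.mem_append] at he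
          rcases he with (he | he) | he <;> rw [List.eq_of_mem_replicate he] <;> simp
        · intro c
          rw [List.countP_append, List.countP_append, List.countP_replicate,
            List.countP_replicate, List.countP_replicate]
          by_cases h0 : c = 0
          · subst h0
            simp
            omega
          · by_cases h1 : c = 1
            · subst h1
              simp
              omega
            · by_cases h2' : c = 2
              · subst h2'
                simp
                omega
              · have e0 : ¬ (0 = c) := fun h => h0 h.symm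
                have e1 : ¬ (1 = c) := fun h => h1 h.symm
                have e2 : ¬ (2 = c) := fun h => h2' h.symm
                simp [e0, e1, e2]
        · simp only [List.length_append, List.length_replicate]
          obtain ⟨s, hs | hs⟩ : ∃ s, d = 2 * s + 1 ∨ d = 2 * s + 2 := ⟨(d - 1) / 2, by omega⟩
          · subst hs
            omega
          · subst hs
            omega
      · obtain ⟨L, hL1, hL2, hL3⟩ := ih (N - 2) (by omega) (by omega)
        refine ⟨L ++ List.replicate (d - 1) (N - 2, N - 1), ?_, ?_, ?_⟩
        · intro e he
          rw [List.mem_append] at he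
          rcases he with he | he
          · obtain ⟨h4, h5, h6⟩ := hL1 e he
            exact ⟨by omega, by omega, h6⟩
          · rw [List.eq_of_mem_replicate he]
            refine ⟨by simp; omega, by simp; omega, by simp; omega⟩
        · intro c
          rw [List.countP_append]
          by_cases hc : c < N - 2
          · have h4 : (List.replicate (d - 1) (N - 2, N - 1)).countP
                (fun e => decide (e.1 = c ∨ e.2 = c)) = 0 := by
              rw [List.countP_replicate, if_neg]
              simp
              omega
            rw [h4, add_zero]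
            exact hL2 c
          · have h4 : L.countP (fun e => decide (e.1 = c ∨ e.2 = c)) = 0 := by
              rw [List.countP_eq_zero]
              intro e he
              obtain ⟨h5, h6, h7⟩ := hL1 e he
              simp
              omega
            rw [h4, zero_add]
            exact (List.countP_le_length).trans (by rw [List.length_replicate])
        · rw [List.length_append, List.length_replicate, hL3]
          obtain ⟨N', rfl⟩ : ∃ N', N = N' + 2 := ⟨N - 2, by omega⟩
          have : (N' + 2) * (d - 1) = N' * (d - 1) + 2 * (d - 1) := by ring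
          rw [this]
          simp only [Nat.add_sub_cancel]
          omega

theorem fexCore (K : Type*) [Field K] (n d k : ℕ) (hn : 4 ≤ n) (hd : 1 ≤ d) (hk : 1 ≤ k) :
    ∃ F : MvPolynomial (Fin n) K, F ≠ 0 ∧ F.IsHomogeneous (d * k - 1 + (n - 2) * (d - 1) / 2) ∧
      ∑ c, pderiv c F = 0 ∧ ∀ m, coeff m F ≠ 0 → ∑ j, m j / d < k := by
  classical
  obtain ⟨N, rfl⟩ : ∃ N, n = N + 2 := ⟨n - 2, by omega⟩
  obtain ⟨L, hL1, hL2, hL3⟩ := exists_list d hd N (by omega)
  let g : ℕ → Fin (N + 2) := fun i => if h : i < N then ⟨i + 2, by omega⟩ else 0
  have hg : ∀ i, i < N → (g i).val = i + 2 := by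
    intro i hi
    simp only [g, dif_pos hi]
  let L1 : List (Fin (N + 2) × Fin (N + 2)) := List.replicate (d * k - 1) (0, 1)
  let L2 : List (Fin (N + 2) × Fin (N + 2)) := L.map fun e => (g e.1, g e.2)
  refine ⟨PL K (L1 ++ L2), PL_ne_zero _ ?_, ?_, PL_deriv _, ?_⟩
  · intro e he
    rw [List.mem_append] at he
    rcases he with he | he
    · rw [List.eq_of_mem_replicate he]
      simp
    · obtain ⟨e', he', rfl⟩ := List.mem_map.1 he
      obtain ⟨h1, h2, h3⟩ := hL1 e' he'
      intro h4
      have h5 := congrArg Fin.val h4
      simp only [hg _ h1, hg _ h2] at h5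
      omega
  · have h1 := PL_homog (K := K) (L1 ++ L2)
    have h2 : (L1 ++ L2).length = d * k - 1 + (N + 2 - 2) * (d - 1) / 2 := by
      simp only [L1, L2, List.length_append, List.length_replicate, List.length_map, hL3,
        Nat.add_sub_cancel]
    rwa [h2] at h1
  · intro m hm
    -- the variables `0`, `1`
    have h01 : m 0 + m 1 ≤ d * k - 1 := by
      have h1 := PL_coeff {0, 1} (L1 ++ L2) m hm
      rw [Finset.sum_pair (by simp), List.countP_append] at h1
      have h2 : L2.countP (fun e => decide (e.1 ∈ ({0, 1} : Finset (Fin (N + 2))) ∨
          e.2 ∈ ({0, 1} : Finset (Fin (N + 2))))) = 0 := by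
        rw [List.countP_eq_zero]
        intro e he
        obtain ⟨e', he', rfl⟩ := List.mem_map.1 he
        obtain ⟨h3, h4, -⟩ := hL1 e' he'
        have h5 := hg _ h3
        have h6 := hg _ h4
        have h7 : ∀ i : Fin (N + 2), 2 ≤ i.val → i ∉ ({0, 1} : Finset (Fin (N + 2))) := by
          intro i hi hmem
          rw [Finset.mem_insert, Finset.mem_singleton] at hmem
          rcases hmem with rfl | rfl
          · simp at hi
          · simp at hi
        have h8 := h7 (g e'.1) (by omega)
        have h9 := h7 (g e'.2) (by omega)
        simp only [decide_eq_true_eq]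
        tauto
      have h3 := List.countP_le_length (p := fun e : Fin (N + 2) × Fin (N + 2) =>
        decide (e.1 ∈ ({0, 1} : Finset (Fin (N + 2))) ∨ e.2 ∈ ({0, 1} : Finset (Fin (N + 2)))))
        (l := L1)
      rw [List.length_replicate] at h3
      omega
    -- the other variables
    have hoth : ∀ i : Fin N, m i.succ.succ / d = 0 := by
      intro i
      have h1 := PL_coeff {i.succ.succ} (L1 ++ L2) m hm
      rw [Finset.sum_singleton, List.countP_append] at h1
      have h2 : L1.countP (fun e => decide (e.1 ∈ ({i.succ.succ} : Finset (Fin (N + 2))) ∨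
          e.2 ∈ ({i.succ.succ} : Finset (Fin (N + 2))))) = 0 := by
        rw [List.countP_eq_zero]
        intro e he
        rw [List.eq_of_mem_replicate he]
        simp only [Finset.mem_singleton, decide_eq_true_eq, not_or]
        constructor
        · intro h
          have := congrArg Fin.val h
          simp at this
        · intro h
          have := congrArg Fin.val h
          simp at this
      have h3 : L2.countP (fun e => decide (e.1 ∈ ({i.succ.succ} : Finset (Fin (N + 2))) ∨
          e.2 ∈ ({i.succ.succ} : Finset (Fin (N + 2))))) =
          L.countP fun e => decide (e.1 = i.val ∨ e.2 = i.val) := by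
        rw [List.countP_map]
        refine List.countP_congr fun e he => ?_
        obtain ⟨h4, h5, -⟩ := hL1 e he
        have h6 := hg _ h4
        have h7 := hg _ h5
        simp only [Function.comp_apply, Finset.mem_singleton, decide_eq_true_eq, Fin.ext_iff,
          Fin.val_succ, h6, h7]
        constructor <;> rintro (h | h) <;> omega
      rw [h2, h3, zero_add] at h1
      have h4 := hL2 i.val
      exact Nat.div_eq_of_lt (by omega)
    have hsum : ∑ j, m j / d = m 0 / d + m 1 / d := by
      rw [Fin.sum_univ_succ, Fin.sum_univ_succ]
      have : ∑ i : Fin N, m i.succ.succ / d = 0 := Finset.sum_eq_zero fun i _ => hoth i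
      rw [this, add_zero]
      rfl
    rw [hsum]
    have h2 : m 0 / d + m 1 / d ≤ (m 0 + m 1) / d := Nat.div_add_div_le_add_div
    have h3 : (m 0 + m 1) / d < k := by
      rw [Nat.div_lt_iff_lt_mul (by omega)]
      have : 0 < d * k := Nat.mul_pos (by omega) (by omega)
      rw [mul_comm k d]
      omega
    omega

end Pool.Agent.V5helper6.WL
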