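import Pool.Agent.V5helper30.WL.Stm
import Pool.Agent.V5helper6.WL.FEXcore

/-!
# Project WL, job FEX
-/

set_option autoImplicit false

namespace Pool.Agent.V5helper6.WL

open Pool.Agent.V5helper30.WL

theorem fex (K : Type*) [Field K] [CharZero K] : S_FEX K := fun n d k hn hd hk =>
  fexCore K n d k hn hd hk

end Pool.Agent.V5helper6.WL
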